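import Pool.Agent.R525.MS.Pair

set_option autoImplicit false

open MeasureTheory Set Filter Topology
open scoped ENNReal NNReal ContDiff

namespace Pool.Agent.R525.MS

variable {N : ℕ}

/-- The cut-off function. -/
noncomputable abbrev eta : ℝ → ℝ := expNegInvGlue

/-- The derivative of the cut-off function. -/
noncomputable def deta (x : ℝ) : ℝ := (x⁻¹) ^ 2 * expNegInvGlue x

theorem hasDerivAt_eta (x : ℝ) : HasDerivAt eta (deta x) x := by
  have := expNegInvGlue.hasDerivAt_polynomial_eval_inv_mul 1 x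
  simpa [deta] using this

theorem deta_nonneg (x : ℝ) : 0 ≤ deta x :=
  mul_nonneg (sq_nonneg _) (expNegInvGlue.nonneg x)

theorem deta_le (x : ℝ) : deta x ≤ 2 := by
  unfold deta
  rcases le_or_gt x 0 with h | h
  · rw [expNegInvGlue.zero_of_nonpos h]; norm_num
  · have h1 : expNegInvGlue x = Real.exp (-x⁻¹) := by simp [expNegInvGlue, not_le.2 h]
    have ht : 0 ≤ x⁻¹ := by positivity
    have h2 := Real.quadratic_le_exp_of_nonneg ht
    rw [h1, Real.exp_neg, ← div_eq_mul_inv, div_le_iff₀ (Real.exp_pos _)]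
    nlinarith

theorem continuous_deta : Continuous deta := by
  have h1 : ContDiff ℝ 1 eta := expNegInvGlue.contDiff
  have h2 : Continuous (deriv eta) := h1.continuous_deriv le_rfl
  have h3 : deriv eta = deta := funext fun x => (hasDerivAt_eta x).deriv
  rwa [h3] at h2

theorem eta_lip : LipschitzWith 2 eta := by
  apply lipschitzWith_of_nnnorm_deriv_le (fun x => (hasDerivAt_eta x).differentiableAt)
  intro x
  rw [(hasDerivAt_eta x).deriv, ← NNReal.coe_le_coe, coe_nnnorm, Real.norm_eq_abs,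
    abs_of_nonneg (deta_nonneg x)]
  exact deta_le x

theorem eta_dist (a b : ℝ) : ‖eta a - eta b‖ ≤ 2 * ‖a - b‖ := by
  have := eta_lip.norm_sub_le a b
  simpa using this

variable {Ω : Set (E N)} {p : ℝ}

theorem IsTest.eta {φ : E N → ℝ} (h : IsTest Ω φ) : IsTest Ω (fun x => eta (φ x)) := by
  refine ⟨expNegInvGlue.contDiff.comp h.1, ?_, ?_⟩
  · exact h.2.1.comp_left (g := MS.eta) expNegInvGlue.zero
  · refine subset_trans ?_ h.2.2
    apply closure_mono
    intro x hx hx0
    apply hx
    simp only [hx0]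
    exact expNegInvGlue.zero

theorem IsTest.gradient_eta {φ : E N → ℝ} (h : IsTest Ω φ) (x : E N) :
    gradient (fun x => MS.eta (φ x)) x = deta (φ x) • gradient φ x := by
  have h1 : HasFDerivAt (fun x => MS.eta (φ x)) (deta (φ x) • fderiv ℝ φ x) x :=
    (hasDerivAt_eta (φ x)).comp_hasFDerivAt x (h.differentiable x).hasFDerivAt
  unfold gradient
  rw [h1.fderiv]
  simp

theorem tendsto_aux (hp : 1 < p) {μ : Measure (E N)} {f : ℕ → E N → E N} {g : E N → E N}
    (hf : ∀ i, AEStronglyMeasurable (f i) μ) (hg : MemLp g (ENNReal.ofReal p) μ)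
    (hb : ∀ i x, ‖f i x‖ ≤ 2 * ‖g x‖) (hlim : ∀ᵐ x ∂μ, Tendsto (fun i => f i x) atTop (𝓝 0)) :
    Tendsto (fun i => eLpNorm (f i) (ENNReal.ofReal p) μ) atTop (𝓝 0) := by
  have hp0 : 0 < p := by linarith
  have hm : ∀ i, MemLp (f i) (ENNReal.ofReal p) μ := fun i =>
    MemLp.of_le_mul hg (hf i) (Eventually.of_forall (hb i))
  have h1 : ENNReal.ofReal p ≠ 0 := by simp [hp0]
  have h2 : ∀ i, eLpNorm (f i) (ENNReal.ofReal p) μ =
      ENNReal.ofReal ((∫ x, ‖f i x‖ ^ p ∂μ) ^ p⁻¹) := by
    intro i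
    have := (hm i).eLpNorm_eq_integral_rpow_norm h1 ENNReal.ofReal_ne_top
    rwa [ENNReal.toReal_ofReal hp0.le] at this
  have h3 : Tendsto (fun i => ∫ x, ‖f i x‖ ^ p ∂μ) atTop (𝓝 (∫ x, (0 : ℝ) ∂μ)) := by
    apply tendsto_integral_of_dominated_convergence (fun x => (2 * ‖g x‖) ^ p)
    · intro i
      exact (integrable_rpow hp (hm i)).1
    · have : (fun x => (2 * ‖g x‖) ^ p) = fun x => 2 ^ p * ‖g x‖ ^ p := by
        ext x; rw [Real.mul_rpow (by norm_num) (norm_nonneg _)]
      rw [this]
      exact (integrable_rpow hp hg).const_mul _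
    · intro i
      refine Eventually.of_forall fun x => ?_
      rw [Real.norm_of_nonneg (by positivity)]
      exact Real.rpow_le_rpow (norm_nonneg _) (hb i x) hp0.le
    · filter_upwards [hlim] with x hx
      have h4 := (hx.norm).rpow_const (p := p) (Or.inr hp0.le)
      rwa [norm_zero, Real.zero_rpow hp0.ne'] at h4
  simp only [integral_zero] at h3
  have h4 := (h3.rpow_const (p := p⁻¹) (Or.inr (by positivity)))
  rw [Real.zero_rpow (by positivity)] at h4
  have h5 := ENNReal.tendsto_ofReal h4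
  rw [ENNReal.ofReal_zero] at h5
  exact h5.congr fun i => (h2 i).symm

theorem W0.comp (hp : 1 < p) {u : E N → ℝ} {g : E N → E N} (h : W0 Ω p u g) :
    W0 Ω p (fun x => MS.eta (u x)) (fun x => deta (u x) • g x) := by
  have hp0 : 0 < p := by linarith
  have hq0 : ENNReal.ofReal p ≠ 0 := by simp [hp0]
  have hq1 : 1 ≤ ENNReal.ofReal p := by rw [ENNReal.one_le_ofReal]; exact hp.le
  obtain ⟨hu, hg, φ, hφ, h1, h2⟩ := h
  set μ := (volume.restrict Ω : Measure (E N)) with hμ
  have hdu : AEStronglyMeasurable (fun x => deta (u x)) μ :=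
    continuous_deta.comp_aestronglyMeasurable hu.1
  have hm1 : MemLp (fun x => MS.eta (u x)) (ENNReal.ofReal p) μ :=
    eta_lip.comp_memLp expNegInvGlue.zero hu
  have hm2 : MemLp (fun x => deta (u x) • g x) (ENNReal.ofReal p) μ := by
    refine MemLp.of_le_mul (c := 2) hg (hdu.smul hg.1) (Eventually.of_forall fun x => ?_)
    rw [norm_smul, Real.norm_of_nonneg (deta_nonneg _)]
    exact mul_le_mul_of_nonneg_right (deta_le _) (norm_nonneg _)
  have hTM : TendstoInMeasure μ φ atTop u :=
    tendstoInMeasure_of_tendsto_eLpNorm hq0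
      (fun n => ((hφ n).memLp (ENNReal.ofReal p) μ).1) hu.1 h1
  obtain ⟨ns, hns, hae⟩ := hTM.exists_seq_tendsto_ae
  refine ⟨hm1, hm2, fun i x => MS.eta (φ (ns i) x), fun i => (hφ (ns i)).eta, ?_, ?_⟩
  · have h3 : Tendsto (fun i => ENNReal.ofReal 2 *
        eLpNorm (fun x => φ (ns i) x - u x) (ENNReal.ofReal p) μ) atTop (𝓝 0) := by
      have := ENNReal.Tendsto.const_mul (a := ENNReal.ofReal 2) (h1.comp hns.tendsto_atTop)
        (Or.inr ENNReal.ofReal_ne_top)
      rwa [mul_zero] at this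
    refine tendsto_of_tendsto_of_tendsto_of_le_of_le tendsto_const_nhds h3
      (fun i => zero_le) (fun i => ?_)
    exact eLpNorm_le_mul_eLpNorm_of_ae_le_mul (Eventually.of_forall fun x => eta_dist _ _) _
  · have h3 : Tendsto (fun i => ENNReal.ofReal 2 *
        eLpNorm (fun x => gradient (φ (ns i)) x - g x) (ENNReal.ofReal p) μ +
        eLpNorm (fun x => (deta (φ (ns i) x) - deta (u x)) • g x) (ENNReal.ofReal p) μ)
        atTop (𝓝 0) := by
      have h4 := ENNReal.Tendsto.const_mul (a := ENNReal.ofReal 2) (h2.comp hns.tendsto_atTop)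
        (Or.inr ENNReal.ofReal_ne_top)
      rw [mul_zero] at h4
      have h5 : Tendsto (fun i => eLpNorm (fun x => (deta (φ (ns i) x) - deta (u x)) • g x)
          (ENNReal.ofReal p) μ) atTop (𝓝 0) := by
        apply tendsto_aux hp _ hg
        · intro i x
          rw [norm_smul]
          apply mul_le_mul_of_nonneg_right _ (norm_nonneg _)
          rw [Real.norm_eq_abs, abs_le]
          constructor
          · linarith [deta_nonneg (φ (ns i) x), deta_le (u x)]
          · linarith [deta_nonneg (u x), deta_le (φ (ns i) x)]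
        · filter_upwards [hae] with x hx
          have h6 : Tendsto (fun i => deta (φ (ns i) x) - deta (u x)) atTop (𝓝 0) := by
            have := ((continuous_deta.tendsto (u x)).comp hx).sub_const (deta (u x))
            rwa [sub_self] at this
          have h7 := h6.smul_const (g x)
          rwa [zero_smul] at h7
        · intro i
          exact ((continuous_deta.comp_aestronglyMeasurable
            (((hφ (ns i)).memLp (ENNReal.ofReal p) μ).1)).sub hdu).smul hg.1
      have := h4.add h5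
      rwa [add_zero] at this
    refine tendsto_of_tendsto_of_tendsto_of_le_of_le tendsto_const_nhds h3
      (fun i => zero_le) (fun i => ?_)
    have hgr : AEStronglyMeasurable (fun x => gradient (φ (ns i)) x - g x) μ :=
      ((hφ (ns i)).memLp_gradient (ENNReal.ofReal p) μ).1.sub hg.1
    have hdφ : AEStronglyMeasurable (fun x => deta (φ (ns i) x)) μ :=
      continuous_deta.comp_aestronglyMeasurable (((hφ (ns i)).memLp (ENNReal.ofReal p) μ).1)
    have e1 : (fun x => gradient (fun x => MS.eta (φ (ns i) x)) x - deta (u x) • g x) =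
        (fun x => deta (φ (ns i) x) • (gradient (φ (ns i)) x - g x)) +
        (fun x => (deta (φ (ns i) x) - deta (u x)) • g x) := by
      ext1 x
      rw [(hφ (ns i)).gradient_eta, Pi.add_apply, smul_sub, sub_smul]
      abel
    calc eLpNorm (fun x => gradient (fun x => MS.eta (φ (ns i) x)) x - deta (u x) • g x)
          (ENNReal.ofReal p) μ
        ≤ eLpNorm (fun x => deta (φ (ns i) x) • (gradient (φ (ns i)) x - g x))
            (ENNReal.ofReal p) μ +
          eLpNorm (fun x => (deta (φ (ns i) x) - deta (u x)) • g x) (ENNReal.ofReal p) μ := by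
          rw [e1]
          exact eLpNorm_add_le (hdφ.smul hgr) ((hdφ.sub hdu).smul hg.1) hq1
      _ ≤ _ := by
          gcongr
          apply eLpNorm_le_mul_eLpNorm_of_ae_le_mul
          refine Eventually.of_forall fun x => ?_
          rw [norm_smul, Real.norm_of_nonneg (deta_nonneg _)]
          exact mul_le_mul_of_nonneg_right (deta_le _) (norm_nonneg _)

theorem integrable_inner' (hp : 1 < p) {μ : Measure (E N)} {f g : E N → E N}
    (hf : MemLp f (ENNReal.ofReal (p / (p - 1))) μ) (hg : MemLp g (ENNReal.ofReal p) μ) :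
    Integrable (fun x => inner ℝ (f x) (g x)) μ := by
  have f3 := conj' hp
  have h1 : Integrable (fun x => ‖f x‖ * ‖g x‖) μ := hf.norm.integrable_mul hg.norm
  refine h1.mono (hf.1.inner hg.1) (Eventually.of_forall fun x => ?_)
  rw [norm_mul, norm_norm, norm_norm]
  exact norm_inner_le_norm _ _

theorem flux_mono (hp : 1 < p) (a b : E N) :
    0 ≤ inner ℝ (flux p a) (a - b) - inner ℝ (flux p b) (a - b) := by
  rcases eq_or_ne a b with h | h
  · subst h; simp
  · rw [flux_inner, flux_inner]; exact (mono_lt hp h).le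

/-- Comparison principle. -/
theorem comparison (hN : 0 < N) (hp : 1 < p) (hb : Bornology.IsBounded Ω)
    {u1 u2 F1 F2 : E N → ℝ}
    (hF1 : MemLp F1 (ENNReal.ofReal (p / (p - 1))) (volume.restrict Ω))
    (hF2 : MemLp F2 (ENNReal.ofReal (p / (p - 1))) (volume.restrict Ω))
    (h1 : Solves Ω p u1 F1) (h2 : Solves Ω p u2 F2)
    (hle : ∀ᵐ x ∂(volume.restrict Ω), F1 x ≤ F2 x) :
    ∀ᵐ x ∂(volume.restrict Ω), u1 x ≤ u2 x := by
  have hp0 : 0 < p := by linarith
  have f1 := fact1 hp
  have f2 := fact2 hp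
  have f3 := conj' hp
  obtain ⟨g1, hW1, hs1⟩ := h1
  obtain ⟨g2, hW2, hs2⟩ := h2
  set μ := (volume.restrict Ω : Measure (E N)) with hμ
  have hW := (hW1.sub hp hW2).comp hp
  have e1 := weak_ext hp hW1.2.1 hF1 hs1 hW
  have e2 := weak_ext hp hW2.2.1 hF2 hs2 hW
  have hq : MemLp (fun x => MS.eta ((u1 - u2) x)) (ENNReal.ofReal p) μ := hW.1
  -- integrability
  have i1 : Integrable (fun x => inner ℝ (flux p (g1 x))
      (deta ((u1 - u2) x) • (g1 - g2) x)) μ :=
    integrable_inner' hp (memLp_flux hp hW1.2.1) hW.2.1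
  have i2 : Integrable (fun x => inner ℝ (flux p (g2 x))
      (deta ((u1 - u2) x) • (g1 - g2) x)) μ :=
    integrable_inner' hp (memLp_flux hp hW2.2.1) hW.2.1
  have i3 : Integrable (fun x => F1 x * MS.eta ((u1 - u2) x)) μ := hF1.integrable_mul hq
  have i4 : Integrable (fun x => F2 x * MS.eta ((u1 - u2) x)) μ := hF2.integrable_mul hq
  set D : E N → ℝ := fun x => inner ℝ (flux p (g1 x)) (deta ((u1 - u2) x) • (g1 - g2) x) -
    inner ℝ (flux p (g2 x)) (deta ((u1 - u2) x) • (g1 - g2) x) with hD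
  have hDeq : ∀ x, D x = deta ((u1 - u2) x) * (inner ℝ (flux p (g1 x)) (g1 x - g2 x) -
      inner ℝ (flux p (g2 x)) (g1 x - g2 x)) := by
    intro x
    simp only [hD, real_inner_smul_right, Pi.sub_apply]
    ring
  have hDnn : 0 ≤ᵐ[μ] D := Eventually.of_forall fun x => by
    rw [hDeq]
    exact mul_nonneg (deta_nonneg _) (flux_mono hp _ _)
  have hDi : Integrable D μ := i1.sub i2
  have hDint : ∫ x, D x ∂μ = 0 := by
    apply le_antisymm _ (integral_nonneg_of_ae hDnn)
    have : ∫ x, D x ∂μ = ∫ x, (F1 x * MS.eta ((u1 - u2) x) - F2 x * MS.eta ((u1 - u2) x)) ∂μ := by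
      rw [integral_sub i3 i4, ← e1, ← e2, hD, integral_sub i1 i2]
    rw [this]
    apply integral_nonpos_of_ae
    filter_upwards [hle] with x hx
    have := expNegInvGlue.nonneg ((u1 - u2) x)
    simp only [Pi.zero_apply]
    nlinarith
  have hD0 := (integral_eq_zero_iff_of_nonneg_ae hDnn hDi).1 hDint
  have hz2 : (fun x => deta ((u1 - u2) x) • (g1 - g2) x) =ᵐ[μ] 0 := by
    filter_upwards [hD0] with x hx
    rw [hDeq, Pi.zero_apply] at hx
    rcases eq_or_ne (g1 x) (g2 x) with h | h
    · simp [h]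
    · have h3 := mono_lt hp h
      rw [← flux_inner, ← flux_inner] at h3
      rcases mul_eq_zero.1 hx with h4 | h4
      · rw [h4]; simp
      · exact absurd h4 h3.ne'
  obtain ⟨R, hR, hΩR⟩ : ∃ R : ℝ, 0 < R ∧ Ω ⊆ Metric.closedBall 0 R := by
    obtain ⟨R, hR⟩ := hb.subset_closedBall 0
    exact ⟨max R 1, by positivity, hR.trans (Metric.closedBall_subset_closedBall (le_max_left _ _))⟩
  have h5 := poinc_S hN hp hR hΩR hW.toS
  have h6 : hW.2.1.toLp (fun x => deta ((u1 - u2) x) • (g1 - g2) x) = 0 := by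
    have h60 : MemLp (0 : E N → E N) (ENNReal.ofReal p) μ := MemLp.zero
    rw [← h60.toLp_zero, MemLp.toLp_eq_toLp_iff]
    exact hz2
  have h7 : hq.toLp (fun x => MS.eta ((u1 - u2) x)) = 0 := by
    apply norm_le_zero_iff.1
    have h8 : ‖hq.toLp (fun x => MS.eta ((u1 - u2) x))‖ ≤ 2 * p * R *
      ‖hW.2.1.toLp (fun x => deta ((u1 - u2) x) • (g1 - g2) x)‖ := h5
    rwa [h6, norm_zero, mul_zero] at h8
  have h8 := hq.coeFn_toLp
  rw [h7] at h8
  filter_upwards [h8, Lp.coeFn_zero ℝ (ENNReal.ofReal p) μ] with x hx hx2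
  rw [hx2] at hx
  have h9 : expNegInvGlue ((u1 - u2) x) = 0 := hx.symm
  have h10 := expNegInvGlue.zero_iff_nonpos.1 h9
  simp only [Pi.sub_apply] at h10
  linarith

end Pool.Agent.R525.MS
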