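import Mathlib

/-!
# Weak solutions of the `p`-Laplace Dirichlet problem and their singular sets
-/

set_option autoImplicit false

open MeasureTheory Set Filter Topology
open scoped ENNReal NNReal ContDiff

namespace Pool.Agent.R525.MS

/-- `ℝ^N`. -/
abbrev E (N : ℕ) := EuclideanSpace ℝ (Fin N)

/-- `φ ∈ C_c^∞(Ω)`. -/
def IsTest {N : ℕ} (Ω : Set (E N)) (φ : E N → ℝ) : Prop :=
  ContDiff ℝ ∞ φ ∧ HasCompactSupport φ ∧ tsupport φ ⊆ Ω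

/-- `u ∈ W_0^{1,p}(Ω)`, the closure of `C_c^∞(Ω)` in `W^{1,p}(Ω)`, with weak gradient `g`. -/
def W0 {N : ℕ} (Ω : Set (E N)) (p : ℝ) (u : E N → ℝ) (g : E N → E N) : Prop :=
  MemLp u (ENNReal.ofReal p) (volume.restrict Ω) ∧
  MemLp g (ENNReal.ofReal p) (volume.restrict Ω) ∧
  ∃ φ : ℕ → E N → ℝ, (∀ k, IsTest Ω (φ k)) ∧
    Tendsto (fun k => eLpNorm (fun x => φ k x - u x) (ENNReal.ofReal p) (volume.restrict Ω))
      atTop (𝓝 0) ∧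
    Tendsto (fun k => eLpNorm (fun x => gradient (φ k) x - g x) (ENNReal.ofReal p)
      (volume.restrict Ω)) atTop (𝓝 0)

/-- `u ∈ W_0^{1,p}(Ω)` and `-Δ_p u = F` in `𝒟'(Ω)`. -/
def Solves {N : ℕ} (Ω : Set (E N)) (p : ℝ) (u F : E N → ℝ) : Prop :=
  ∃ g : E N → E N, W0 Ω p u g ∧ ∀ φ : E N → ℝ, IsTest Ω φ →
    ∫ x in Ω, ‖g x‖ ^ (p - 2) * inner ℝ (g x) (gradient φ x) = ∫ x in Ω, F x * φ x

/-- The solution set `X(Ω, p)`: the `u ∈ W_0^{1,p}(Ω)` with `-Δ_p u = F` in `𝒟'(Ω)` for some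
`F ∈ L^{p'}(Ω)`, `p' = p / (p - 1)`. -/
def X {N : ℕ} (Ω : Set (E N)) (p : ℝ) : Set (E N → ℝ) :=
  {u | ∃ F : E N → ℝ, MemLp F (ENNReal.ofReal (p / (p - 1))) (volume.restrict Ω) ∧
    Solves Ω p u F}

/-- The singular set of `u : Ω → ℝ`: the points `a ∈ Ω` for which there are `C, γ, r > 0` with
`u(x) ≥ C |x - a|^{-γ}` for almost all `x ∈ B_r(a) ⊆ Ω`. -/
def Sing {N : ℕ} (Ω : Set (E N)) (u : E N → ℝ) : Set (E N) :=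
  {a | a ∈ Ω ∧ ∃ C γ r : ℝ, 0 < C ∧ 0 < γ ∧ 0 < r ∧ Metric.ball a r ⊆ Ω ∧
    ∀ᵐ x ∂(volume.restrict (Metric.ball a r)), C * ‖x - a‖ ^ (-γ) ≤ u x}

end Pool.Agent.R525.MS
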