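import Pool.Agent.R525.MS.Comp

set_option autoImplicit false

open MeasureTheory Set Filter Topology
open scoped ENNReal NNReal ContDiff

namespace Pool.Agent.R525.MS

variable {N : ℕ} {Ω : Set (E N)} {p : ℝ}

theorem lp_unif_conv (hp : 1 < p) [Fact (1 ≤ ENNReal.ofReal p)] (ε : ℝ) (hε : 0 < ε) :
    ∃ C : ℝ, 0 ≤ C ∧ ∀ f g : V2 Ω p, ‖f - g‖ ^ p ≤ ε * (‖f‖ ^ p + ‖g‖ ^ p) +
      C * ((‖f‖ ^ p + ‖g‖ ^ p) / 2 - ‖(1 / 2 : ℝ) • (f + g)‖ ^ p) := by
  obtain ⟨C, hC, h⟩ := unif_conv (N := N) hp ε hε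
  refine ⟨C, hC, fun f g => ?_⟩
  have i1 := integrable_rpow hp (Lp.memLp f)
  have i2 := integrable_rpow hp (Lp.memLp g)
  have i3 := integrable_rpow hp (Lp.memLp ((1 / 2 : ℝ) • (f + g)))
  have i4 := integrable_rpow hp (Lp.memLp (f - g))
  have i5 : Integrable (fun x => ‖f x‖ ^ p + ‖g x‖ ^ p) (volume.restrict Ω) := i1.add i2
  have i6 : Integrable (fun x => (‖f x‖ ^ p + ‖g x‖ ^ p) / 2 -
      ‖((1 / 2 : ℝ) • (f + g) : V2 Ω p) x‖ ^ p) (volume.restrict Ω) := (i5.div_const 2).sub i3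
  rw [lp_norm_rpow hp, lp_norm_rpow hp, lp_norm_rpow hp, lp_norm_rpow hp]
  calc ∫ x in Ω, ‖(f - g) x‖ ^ p
      ≤ ∫ x in Ω, (ε * (‖f x‖ ^ p + ‖g x‖ ^ p) +
        C * ((‖f x‖ ^ p + ‖g x‖ ^ p) / 2 - ‖((1 / 2 : ℝ) • (f + g) : V2 Ω p) x‖ ^ p)) := by
        apply integral_mono_ae i4 ((i5.const_mul ε).add (i6.const_mul C))
        filter_upwards [Lp.coeFn_sub f g, Lp.coeFn_smul (1 / 2 : ℝ) (f + g), Lp.coeFn_add f g]
          with x h1 h2 h3
        simp only [Pi.add_apply]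
        rw [h1, h2, Pi.smul_apply, h3]
        exact h (f x) (g x)
    _ = _ := by
        rw [integral_add (i5.const_mul ε) (i6.const_mul C), integral_const_mul,
          integral_const_mul, integral_sub (i5.div_const 2) i3, integral_div,
          integral_add i1 i2]

theorem exists_min (hN : 0 < N) (hp : 1 < p) [Fact (1 ≤ ENNReal.ofReal p)]
    (hb : Bornology.IsBounded Ω) (Q : V1 Ω p →L[ℝ] ℝ) :
    ∃ z ∈ S Ω p, ∀ w ∈ S Ω p, ‖z.2‖ ^ p / p - Q z.1 ≤ ‖w.2‖ ^ p / p - Q w.1 := by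
  have hp0 : 0 < p := by linarith
  obtain ⟨R, hR, hΩR⟩ : ∃ R : ℝ, 0 < R ∧ Ω ⊆ Metric.closedBall 0 R := by
    obtain ⟨R, hR⟩ := hb.subset_closedBall 0
    exact ⟨max R 1, by positivity, hR.trans (Metric.closedBall_subset_closedBall (le_max_left _ _))⟩
  set C₀ := 2 * p * R with hC₀
  have hC₀pos : 0 < C₀ := by positivity
  set M := ‖Q‖ * C₀ + 1 with hM
  have hMpos : 0 < M := by positivity
  have hQ : ∀ z ∈ S Ω p, Q z.1 ≤ M * ‖z.2‖ := by
    intro z hz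
    have h1 := poinc_S hN hp hR hΩR hz
    calc Q z.1 ≤ ‖Q z.1‖ := Real.le_norm_self _
      _ ≤ ‖Q‖ * ‖z.1‖ := Q.le_opNorm _
      _ ≤ ‖Q‖ * (C₀ * ‖z.2‖) := mul_le_mul_of_nonneg_left h1 (norm_nonneg _)
      _ ≤ M * ‖z.2‖ := by rw [hM]; nlinarith [norm_nonneg z.2]
  set r := (2 * M) ^ (1 / (p - 1)) with hr
  have hrpos : 0 < r := by positivity
  have hrp : r ^ (p - 1) = 2 * M := by
    rw [hr, ← Real.rpow_mul (by positivity), one_div, inv_mul_cancel₀ (by linarith : p - 1 ≠ 0),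
      Real.rpow_one]
  have hrp' : r ^ p = r ^ (p - 1) * r := by
    rw [← Real.rpow_add_one hrpos.ne']; congr 1; ring
  set K := (p - 1) * r ^ p / (2 * p) with hK
  have hJ : ∀ z ∈ S Ω p, ‖z.2‖ ^ p / (2 * p) - K ≤ ‖z.2‖ ^ p / p - Q z.1 := by
    intro z hz
    have h1 := hQ z hz
    have h2 := scalar_le hp hrpos (norm_nonneg z.2)
    have h3 : M * ‖z.2‖ ≤ ‖z.2‖ ^ p / (2 * p) + K := by
      have : 2 * p * (M * ‖z.2‖) ≤ ‖z.2‖ ^ p + (p - 1) * r ^ p := by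
        have h4 : p * (r ^ (p - 1) * (‖z.2‖ - r)) = p * (2 * M * ‖z.2‖) - p * r ^ p := by
          rw [hrp', hrp]; ring
        rw [h4] at h2
        linarith
      rw [hK, ← add_div, le_div_iff₀ (by positivity)]
      linarith
    have h5 : ‖z.2‖ ^ p / p = ‖z.2‖ ^ p / (2 * p) + ‖z.2‖ ^ p / (2 * p) := by
      field_simp; ring
    rw [h5]; linarith
  set J : V1 Ω p × V2 Ω p → ℝ := fun z => ‖z.2‖ ^ p / p - Q z.1 with hJdef
  have hJc : Continuous J := by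
    apply Continuous.sub
    · exact ((continuous_snd.norm).rpow_const (fun _ => Or.inr hp0.le)).div_const p
    · exact Q.continuous.comp continuous_fst
  have hbdd : BddBelow (J '' (S Ω p : Set (V1 Ω p × V2 Ω p))) := by
    refine ⟨-K, ?_⟩
    rintro _ ⟨z, hz, rfl⟩
    have h1 := hJ z hz
    have h2 : 0 ≤ ‖z.2‖ ^ p / (2 * p) := by positivity
    simp only [hJdef]
    linarith
  have hne : (J '' (S Ω p : Set (V1 Ω p × V2 Ω p))).Nonempty := ⟨J 0, 0, (S Ω p).zero_mem, rfl⟩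
  set m := sInf (J '' (S Ω p : Set (V1 Ω p × V2 Ω p))) with hm
  have hmle : ∀ z ∈ S Ω p, m ≤ J z := fun z hz => csInf_le hbdd ⟨z, hz, rfl⟩
  have hex : ∀ k : ℕ, ∃ z ∈ S Ω p, J z < m + 1 / ((k : ℝ) + 1) := by
    intro k
    have h1 : m < m + 1 / ((k : ℝ) + 1) := by
      have : 0 < 1 / ((k : ℝ) + 1) := by positivity
      linarith
    obtain ⟨_, ⟨z, hz, rfl⟩, h2⟩ := exists_lt_of_csInf_lt hne h1
    exact ⟨z, hz, h2⟩
  choose z hzS hzJ using hex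
  set B := 2 * p * (m + 1 + K) with hB
  have hzB : ∀ k, ‖(z k).2‖ ^ p ≤ B := by
    intro k
    have h1 := hJ _ (hzS k)
    have h2 := hzJ k
    have h3 : 1 / ((k : ℝ) + 1) ≤ 1 := by
      rw [div_le_one (by positivity)]; linarith [(Nat.cast_nonneg k : (0 : ℝ) ≤ k)]
    have h4 : ‖(z k).2‖ ^ p / (2 * p) ≤ m + 1 + K := by
      simp only [hJdef] at h2
      linarith
    rw [div_le_iff₀ (by positivity)] at h4
    rw [hB]; linarith
  have hB0 : 0 ≤ B := le_trans (by positivity) (hzB 0)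
  have hd : ∀ (a : ℝ) (x y : V1 Ω p × V2 Ω p), x ∈ S Ω p → y ∈ S Ω p → J x ≤ m + a →
      J y ≤ m + a → (‖x.2‖ ^ p + ‖y.2‖ ^ p) / 2 - ‖(1 / 2 : ℝ) • (x.2 + y.2)‖ ^ p ≤ p * a := by
    intro a x y hx hy h1 h2
    have h3 := hmle ((1 / 2 : ℝ) • (x + y)) ((S Ω p).smul_mem _ ((S Ω p).add_mem hx hy))
    simp only [hJdef, Prod.smul_snd, Prod.smul_fst, Prod.snd_add, Prod.fst_add, map_smul,
      map_add, smul_eq_mul] at h1 h2 h3
    have e1 : (‖x.2‖ ^ p / p + ‖y.2‖ ^ p / p) / 2 - ‖(1 / 2 : ℝ) • (x.2 + y.2)‖ ^ p / p ≤ a := by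
      linarith
    have e2 : (‖x.2‖ ^ p + ‖y.2‖ ^ p) / 2 - ‖(1 / 2 : ℝ) • (x.2 + y.2)‖ ^ p =
        p * ((‖x.2‖ ^ p / p + ‖y.2‖ ^ p / p) / 2 - ‖(1 / 2 : ℝ) • (x.2 + y.2)‖ ^ p / p) := by
      field_simp
    rw [e2]
    exact mul_le_mul_of_nonneg_left e1 hp0.le
  have hcau : CauchySeq z := by
    rw [Metric.cauchySeq_iff']
    intro ε hε
    set e := ε / (C₀ + 1) with he
    have hepos : 0 < e := by positivity
    have hep : 0 < e ^ p := by positivity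
    obtain ⟨C, hC, hU⟩ := lp_unif_conv (N := N) (Ω := Ω) hp (e ^ p / (4 * B + 4)) (by positivity)
    obtain ⟨n0, hn0⟩ := exists_nat_gt (2 * C * p / e ^ p)
    refine ⟨n0, fun n hn => ?_⟩
    have hn0' : 1 / ((n : ℝ) + 1) ≤ 1 / ((n0 : ℝ) + 1) := by
      apply one_div_le_one_div_of_le (by positivity)
      have : (n0 : ℝ) ≤ n := by exact_mod_cast hn
      linarith
    have h1 := hd (1 / ((n0 : ℝ) + 1)) (z n) (z n0) (hzS n) (hzS n0)
      ((hzJ n).le.trans (by linarith)) (hzJ n0).le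
    have h2 := hU (z n).2 (z n0).2
    have h3 : ‖(z n).2 - (z n0).2‖ ^ p < e ^ p := by
      have h4 : e ^ p / (4 * B + 4) * (‖(z n).2‖ ^ p + ‖(z n0).2‖ ^ p) < e ^ p / 2 := by
        have h5 : ‖(z n).2‖ ^ p + ‖(z n0).2‖ ^ p ≤ 2 * B := by linarith [hzB n, hzB n0]
        calc e ^ p / (4 * B + 4) * (‖(z n).2‖ ^ p + ‖(z n0).2‖ ^ p)
            ≤ e ^ p / (4 * B + 4) * (2 * B) := mul_le_mul_of_nonneg_left h5 (by positivity)
          _ < e ^ p / 2 := by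
              rw [div_mul_eq_mul_div, div_lt_div_iff₀ (by positivity) (by norm_num)]
              nlinarith
      have h6 : C * ((‖(z n).2‖ ^ p + ‖(z n0).2‖ ^ p) / 2 -
          ‖(1 / 2 : ℝ) • ((z n).2 + (z n0).2)‖ ^ p) ≤ e ^ p / 2 := by
        calc _ ≤ C * (p * (1 / ((n0 : ℝ) + 1))) := mul_le_mul_of_nonneg_left h1 hC
          _ ≤ e ^ p / 2 := by
              rw [div_lt_iff₀ hep] at hn0
              have h7 : (0 : ℝ) < (n0 : ℝ) + 1 := by positivity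
              rw [mul_one_div, ← mul_div_assoc, div_le_div_iff₀ h7 (by norm_num)]
              nlinarith
      linarith
    have h4 : ‖(z n).2 - (z n0).2‖ < e := by
      by_contra hcon
      push Not at hcon
      exact absurd h3 (not_lt.2 (Real.rpow_le_rpow hepos.le hcon hp0.le))
    have h5 := poinc_S hN hp hR hΩR ((S Ω p).sub_mem (hzS n) (hzS n0))
    rw [dist_eq_norm, Prod.norm_def, max_lt_iff]
    have h6 : e * (C₀ + 1) = ε := by rw [he]; field_simp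
    constructor
    · calc ‖(z n - z n0).1‖ ≤ C₀ * ‖(z n - z n0).2‖ := h5
        _ ≤ C₀ * e := mul_le_mul_of_nonneg_left h4.le hC₀pos.le
        _ < ε := by nlinarith
    · have : ‖(z n - z n0).2‖ < e := h4
      nlinarith
  obtain ⟨z0, hz0⟩ := cauchySeq_tendsto_of_complete hcau
  have hcl : IsClosed (S Ω p : Set (V1 Ω p × V2 Ω p)) := (T Ω p).isClosed_topologicalClosure
  have hz0S : z0 ∈ S Ω p := hcl.mem_of_tendsto hz0 (Eventually.of_forall hzS)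
  have hJ0 : J z0 ≤ m := by
    have h1 : Tendsto (fun k => J (z k)) atTop (𝓝 (J z0)) := (hJc.tendsto z0).comp hz0
    have h2 : Tendsto (fun k : ℕ => m + 1 / ((k : ℝ) + 1)) atTop (𝓝 (m + 0)) :=
      tendsto_const_nhds.add tendsto_one_div_add_atTop_nhds_zero_nat
    rw [add_zero] at h2
    exact le_of_tendsto_of_tendsto' h1 h2 fun k => (hzJ k).le
  exact ⟨z0, hz0S, fun w hw => hJ0.trans (hmle w hw)⟩

end Pool.Agent.R525.MS
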