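import Pool.Agent.R525.MS.Exist

set_option autoImplicit false

open MeasureTheory Set Filter Topology
open scoped ENNReal NNReal ContDiff

namespace Pool.Agent.R525.MS

variable {N : ℕ} {Ω : Set (E N)} {p : ℝ}

/-- Convexity of the energy, integrated. -/
theorem energy_convex (hp : 1 < p) [Fact (1 ≤ ENNReal.ofReal p)] (f g : V2 Ω p) :
    ‖f‖ ^ p + p * ∫ x in Ω, inner ℝ (flux p (f x)) ((g - f) x) ≤ ‖g‖ ^ p := by
  have i1 := integrable_rpow hp (Lp.memLp f)
  have i2 := integrable_rpow hp (Lp.memLp g)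
  have i3 : Integrable (fun x => inner ℝ (flux p (f x)) ((g - f) x)) (volume.restrict Ω) :=
    integrable_inner' hp (memLp_flux hp (Lp.memLp f)) (Lp.memLp (g - f))
  rw [lp_norm_rpow hp, lp_norm_rpow hp, ← integral_const_mul, ← integral_add i1 (i3.const_mul p)]
  apply integral_mono_ae (i1.add (i3.const_mul p)) i2
  filter_upwards [Lp.coeFn_sub g f] with x hx
  simp only [Pi.add_apply]
  rw [hx, flux_inner]
  exact convex_le hp (f x) (g x)

theorem tendsto_flux (hp : 1 < p) [Fact (1 ≤ ENNReal.ofReal p)] (f h : V2 Ω p) :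
    Tendsto (fun n : ℕ => ∫ x in Ω, inner ℝ (flux p (f x + (1 / ((n : ℝ) + 1)) • h x)) (h x))
      atTop (𝓝 (∫ x in Ω, inner ℝ (flux p (f x)) (h x))) := by
  have f3 := conj' hp
  have hk : MemLp (fun x => ‖f x‖ + ‖h x‖) (ENNReal.ofReal p) (volume.restrict Ω) :=
    (Lp.memLp f).norm.add (Lp.memLp h).norm
  have hk1 : MemLp (fun x => (‖f x‖ + ‖h x‖) ^ (p - 1)) (ENNReal.ofReal (p / (p - 1)))
      (volume.restrict Ω) := by
    have h1 := hk.norm_rpow_div (ENNReal.ofReal (p - 1))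
    rw [ENNReal.toReal_ofReal (by linarith), ← ENNReal.ofReal_div_of_pos (by linarith)] at h1
    refine h1.ae_eq (Eventually.of_forall fun x => ?_)
    simp only
    rw [Real.norm_of_nonneg (by positivity)]
  have hk2 : Integrable (fun x => (‖f x‖ + ‖h x‖) ^ (p - 1) * ‖h x‖) (volume.restrict Ω) :=
    hk1.integrable_mul (Lp.memLp h).norm
  have hfm := (Lp.memLp f).1
  have hhm := (Lp.memLp h).1
  apply tendsto_integral_of_dominated_convergence
    (fun x => (‖f x‖ + ‖h x‖) ^ (p - 1) * ‖h x‖) _ hk2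
  · intro n
    refine Eventually.of_forall fun x => ?_
    have hn : (1 / ((n : ℝ) + 1)) ≤ 1 := by
      rw [div_le_one (by positivity)]; linarith [(Nat.cast_nonneg n : (0 : ℝ) ≤ n)]
    calc ‖inner ℝ (flux p (f x + (1 / ((n : ℝ) + 1)) • h x)) (h x)‖
        ≤ ‖flux p (f x + (1 / ((n : ℝ) + 1)) • h x)‖ * ‖h x‖ := norm_inner_le_norm _ _
      _ ≤ (‖f x‖ + ‖h x‖) ^ (p - 1) * ‖h x‖ := by
          apply mul_le_mul_of_nonneg_right _ (norm_nonneg _)
          rw [norm_flux hp]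
          apply Real.rpow_le_rpow (norm_nonneg _) _ (by linarith)
          calc ‖f x + (1 / ((n : ℝ) + 1)) • h x‖ ≤ ‖f x‖ + ‖(1 / ((n : ℝ) + 1)) • h x‖ :=
                norm_add_le _ _
            _ ≤ ‖f x‖ + ‖h x‖ := by
                rw [norm_smul, Real.norm_of_nonneg (by positivity)]
                have := norm_nonneg (h x)
                nlinarith
  · refine Eventually.of_forall fun x => ?_
    have h1 : Tendsto (fun n : ℕ => f x + (1 / ((n : ℝ) + 1)) • h x) atTop (𝓝 (f x)) := by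
      have h2 : Tendsto (fun n : ℕ => (1 / ((n : ℝ) + 1)) • h x) atTop (𝓝 ((0 : ℝ) • h x)) :=
        tendsto_one_div_add_atTop_nhds_zero_nat.smul_const _
      have h3 := (tendsto_const_nhds (x := f x)).add h2
      rwa [zero_smul, add_zero] at h3
    exact (((continuous_flux hp).tendsto (f x)).comp h1).inner tendsto_const_nhds
  · intro n
    have h4 : AEStronglyMeasurable (fun x => f x + (1 / ((n : ℝ) + 1)) • h x)
        (volume.restrict Ω) := hfm.add (hhm.const_smul (1 / ((n : ℝ) + 1)))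
    have h5 : AEStronglyMeasurable (fun x => flux p (f x + (1 / ((n : ℝ) + 1)) • h x))
        (volume.restrict Ω) := (continuous_flux hp).comp_aestronglyMeasurable h4
    exact h5.inner hhm

theorem EL_le (hp : 1 < p) [Fact (1 ≤ ENNReal.ofReal p)] (Q : V1 Ω p →L[ℝ] ℝ)
    {z : V1 Ω p × V2 Ω p} (hz : z ∈ S Ω p)
    (hmin : ∀ w ∈ S Ω p, ‖z.2‖ ^ p / p - Q z.1 ≤ ‖w.2‖ ^ p / p - Q w.1)
    {w : V1 Ω p × V2 Ω p} (hw : w ∈ S Ω p) :
    Q w.1 ≤ ∫ x in Ω, inner ℝ (flux p (z.2 x)) (w.2 x) := by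
  have hp0 : 0 < p := by linarith
  apply ge_of_tendsto' (tendsto_flux hp z.2 w.2)
  intro n
  set t : ℝ := 1 / ((n : ℝ) + 1) with ht
  have htpos : 0 < t := by positivity
  have h1 := hmin (z + t • w) ((S Ω p).add_mem hz ((S Ω p).smul_mem _ hw))
  have h2 := energy_convex hp (z.2 + t • w.2) z.2
  simp only [Prod.snd_add, Prod.fst_add, Prod.smul_fst, Prod.smul_snd, map_add, map_smul,
    smul_eq_mul] at h1
  have h3 : ∫ x in Ω, inner ℝ (flux p ((z.2 + t • w.2 : V2 Ω p) x))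
      ((z.2 - (z.2 + t • w.2) : V2 Ω p) x) =
      -(t * ∫ x in Ω, inner ℝ (flux p (z.2 x + t • w.2 x)) (w.2 x)) := by
    rw [← integral_const_mul, ← integral_neg]
    apply integral_congr_ae
    filter_upwards [Lp.coeFn_add z.2 (t • w.2), Lp.coeFn_smul t w.2,
      Lp.coeFn_sub z.2 (z.2 + t • w.2)] with x e1 e2 e3
    rw [e3, Pi.sub_apply, e1, Pi.add_apply, e2, Pi.smul_apply]
    have : z.2 x - (z.2 x + t • w.2 x) = -(t • w.2 x) := by abel
    rw [this, inner_neg_right, real_inner_smul_right]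
  rw [h3] at h2
  set I := ∫ x in Ω, inner ℝ (flux p (z.2 x + t • w.2 x)) (w.2 x) with hI
  have h4 : ‖z.2 + t • w.2‖ ^ p / p - t * I ≤ ‖z.2‖ ^ p / p := by
    have : ‖z.2 + t • w.2‖ ^ p / p - t * I = (‖z.2 + t • w.2‖ ^ p + p * -(t * I)) / p := by
      field_simp
      ring
    rw [this]
    exact div_le_div_of_nonneg_right h2 hp0.le
  have h5 : t * Q w.1 ≤ t * I := by linarith
  exact le_of_mul_le_mul_left h5 htpos

/-- Existence of weak solutions. -/
theorem exists_solves (hN : 0 < N) (hp : 1 < p) (hb : Bornology.IsBounded Ω) {G : E N → ℝ}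
    (hG : MemLp G (ENNReal.ofReal (p / (p - 1))) (volume.restrict Ω)) :
    ∃ u, Solves Ω p u G := by
  have f1 := fact1 hp
  have f2 := fact2 hp
  have f3 := conj' hp
  set Q := (ContinuousLinearMap.mul ℝ ℝ).lpPairing (volume.restrict Ω)
    (ENNReal.ofReal (p / (p - 1))) (ENNReal.ofReal p) (hG.toLp _) with hQ
  have hQ' : ∀ z : V1 Ω p, Q z = ∫ x in Ω, G x * z x := by
    intro z
    rw [hQ, ContinuousLinearMap.lpPairing_eq_integral]
    apply integral_congr_ae
    filter_upwards [hG.coeFn_toLp] with x hx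
    rw [hx]; rfl
  obtain ⟨z, hz, hmin⟩ := exists_min hN hp hb Q
  refine ⟨z.1, z.2, S.toW0 hz, fun φ hφ => ?_⟩
  have hφ1 := hφ.memLp (ENNReal.ofReal p) (volume.restrict Ω)
  have hφ2 := hφ.memLp_gradient (ENNReal.ofReal p) (volume.restrict Ω)
  set w : V1 Ω p × V2 Ω p := (hφ1.toLp _, hφ2.toLp _) with hw
  have hwS : w ∈ S Ω p :=
    (T Ω p).le_topologicalClosure ⟨φ, hφ, hφ1.coeFn_toLp, hφ2.coeFn_toLp⟩
  have h1 := EL_le hp Q hz hmin hwS
  have h2 := EL_le hp Q hz hmin ((S Ω p).neg_mem hwS)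
  have h3 : ∫ x in Ω, inner ℝ (flux p (z.2 x)) ((-w).2 x) =
      - ∫ x in Ω, inner ℝ (flux p (z.2 x)) (w.2 x) := by
    rw [← integral_neg]
    apply integral_congr_ae
    filter_upwards [Lp.coeFn_neg w.2] with x hx
    rw [Prod.snd_neg, hx, Pi.neg_apply, inner_neg_right]
  rw [h3, Prod.fst_neg, map_neg] at h2
  have h4 : ∫ x in Ω, inner ℝ (flux p (z.2 x)) (w.2 x) = Q w.1 := le_antisymm (by linarith) h1
  rw [hQ'] at h4
  calc ∫ x in Ω, ‖z.2 x‖ ^ (p - 2) * inner ℝ (z.2 x) (gradient φ x)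
      = ∫ x in Ω, inner ℝ (flux p (z.2 x)) (w.2 x) := by
        apply integral_congr_ae
        filter_upwards [hφ2.coeFn_toLp] with x hx
        rw [hw]
        simp only
        rw [hx, flux_inner]
    _ = ∫ x in Ω, G x * w.1 x := h4
    _ = ∫ x in Ω, G x * φ x := by
        apply integral_congr_ae
        filter_upwards [hφ1.coeFn_toLp] with x hx
        rw [hw]
        simp only
        rw [hx]

end Pool.Agent.R525.MS
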