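import Pool.Agent.R525.MS.Space

set_option autoImplicit false

open MeasureTheory Set Filter Topology
open scoped ENNReal NNReal ContDiff

namespace Pool.Agent.R525.MS

variable {N : ℕ}

/-- The flux `|a|^{p-2} a`. -/
noncomputable def flux (p : ℝ) (a : E N) : E N := ‖a‖ ^ (p - 2) • a

theorem norm_flux {p : ℝ} (hp : 1 < p) (a : E N) : ‖flux p a‖ = ‖a‖ ^ (p - 1) := by
  unfold flux
  rw [norm_smul, Real.norm_of_nonneg (by positivity)]
  rcases eq_or_ne a 0 with h | h
  · subst h; simp [Real.zero_rpow (by linarith : p - 1 ≠ 0)]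
  · rw [← Real.rpow_add_one (norm_ne_zero_iff.2 h)]; congr 1; ring

theorem continuous_flux {p : ℝ} (hp : 1 < p) : Continuous (flux p : E N → E N) := by
  rw [continuous_iff_continuousAt]
  intro a
  rcases eq_or_ne a 0 with h | h
  · subst h
    have h0 : flux p (0 : E N) = 0 := by simp [flux]
    rw [ContinuousAt, h0, tendsto_zero_iff_norm_tendsto_zero]
    have h1 : Continuous fun a : E N => ‖a‖ ^ (p - 1) :=
      continuous_norm.rpow_const fun _ => Or.inr (by linarith)
    have h2 := h1.tendsto 0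
    rw [norm_zero, Real.zero_rpow (by linarith : p - 1 ≠ 0)] at h2
    exact h2.congr fun x => (norm_flux hp x).symm
  · unfold flux
    exact (continuous_norm.continuousAt.rpow_const (Or.inl (norm_ne_zero_iff.2 h))).smul
      continuousAt_id

theorem flux_inner (p : ℝ) (a b : E N) : inner ℝ (flux p a) b = ‖a‖ ^ (p - 2) * inner ℝ a b := by
  unfold flux; rw [real_inner_smul_left]

theorem flux_neg_inner (p : ℝ) (a b : E N) :
    inner ℝ (flux p a) (-b) = - inner ℝ (flux p a) b := inner_neg_right _ _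

theorem memLp_flux {p : ℝ} (hp : 1 < p) {μ : Measure (E N)} {g : E N → E N}
    (hg : MemLp g (ENNReal.ofReal p) μ) :
    MemLp (fun x => flux p (g x)) (ENNReal.ofReal (p / (p - 1))) μ := by
  have h1 := hg.norm_rpow_div (ENNReal.ofReal (p - 1))
  rw [ENNReal.toReal_ofReal (by linarith), ← ENNReal.ofReal_div_of_pos (by linarith)] at h1
  refine h1.mono ((continuous_flux hp).comp_aestronglyMeasurable hg.1) ?_
  refine Eventually.of_forall fun x => ?_
  rw [norm_flux hp, Real.norm_of_nonneg (by positivity)]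

theorem conj' {p : ℝ} (hp : 1 < p) :
    ENNReal.HolderConjugate (ENNReal.ofReal (p / (p - 1))) (ENNReal.ofReal p) :=
  (Real.HolderConjugate.conjExponent hp).symm.ennrealOfReal

theorem fact1 {p : ℝ} (hp : 1 < p) : Fact (1 ≤ ENNReal.ofReal p) :=
  ⟨by rw [ENNReal.one_le_ofReal]; exact hp.le⟩

theorem fact2 {p : ℝ} (hp : 1 < p) : Fact (1 ≤ ENNReal.ofReal (p / (p - 1))) :=
  ⟨by rw [ENNReal.one_le_ofReal, le_div_iff₀ (by linarith)]; linarith⟩

variable {Ω : Set (E N)} {p : ℝ}

/-- The weak formulation extends from test functions to `W_0^{1,p}`. -/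
theorem weak_ext (hp : 1 < p) {g : E N → E N} {F : E N → ℝ}
    (hg : MemLp g (ENNReal.ofReal p) (volume.restrict Ω))
    (hF : MemLp F (ENNReal.ofReal (p / (p - 1))) (volume.restrict Ω))
    (h : ∀ φ : E N → ℝ, IsTest Ω φ →
      ∫ x in Ω, ‖g x‖ ^ (p - 2) * inner ℝ (g x) (gradient φ x) = ∫ x in Ω, F x * φ x)
    {w : E N → ℝ} {k : E N → E N} (hw : W0 Ω p w k) :
    ∫ x in Ω, inner ℝ (flux p (g x)) (k x) = ∫ x in Ω, F x * w x := by
  have f1 := fact1 hp
  have f2 := fact2 hp
  have f3 := conj' hp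
  have hfl := memLp_flux hp hg
  set P := (innerSL ℝ : E N →L[ℝ] E N →L[ℝ] ℝ).lpPairing (volume.restrict Ω)
    (ENNReal.ofReal (p / (p - 1))) (ENNReal.ofReal p) (hfl.toLp _) with hP
  set Q := (ContinuousLinearMap.mul ℝ ℝ).lpPairing (volume.restrict Ω)
    (ENNReal.ofReal (p / (p - 1))) (ENNReal.ofReal p) (hF.toLp _) with hQ
  have hP' : ∀ z : V2 Ω p, P z = ∫ x in Ω, inner ℝ (flux p (g x)) (z x) := by
    intro z
    rw [hP, ContinuousLinearMap.lpPairing_eq_integral]
    apply integral_congr_ae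
    filter_upwards [hfl.coeFn_toLp] with x hx
    rw [hx]; rfl
  have hQ' : ∀ z : V1 Ω p, Q z = ∫ x in Ω, F x * z x := by
    intro z
    rw [hQ, ContinuousLinearMap.lpPairing_eq_integral]
    apply integral_congr_ae
    filter_upwards [hF.coeFn_toLp] with x hx
    rw [hx]; rfl
  have hcl : IsClosed {z : V1 Ω p × V2 Ω p | P z.2 = Q z.1} :=
    isClosed_eq (P.continuous.comp continuous_snd) (Q.continuous.comp continuous_fst)
  have hsub : closure (T Ω p : Set (V1 Ω p × V2 Ω p)) ⊆ {z : V1 Ω p × V2 Ω p | P z.2 = Q z.1} := by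
    refine closure_minimal ?_ hcl
    rintro z ⟨φ, hφ, h1, h2⟩
    change P z.2 = Q z.1
    rw [hP', hQ']
    calc ∫ x in Ω, inner ℝ (flux p (g x)) (z.2 x)
        = ∫ x in Ω, ‖g x‖ ^ (p - 2) * inner ℝ (g x) (gradient φ x) := by
          apply integral_congr_ae
          filter_upwards [h2] with x hx
          rw [hx, flux_inner]
      _ = ∫ x in Ω, F x * φ x := h φ hφ
      _ = ∫ x in Ω, F x * z.1 x := by
          apply integral_congr_ae
          filter_upwards [h1] with x hx
          rw [hx]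
  have h3 := hsub hw.toS
  change P (hw.2.1.toLp k) = Q (hw.1.toLp w) at h3
  rw [hP', hQ'] at h3
  calc ∫ x in Ω, inner ℝ (flux p (g x)) (k x)
      = ∫ x in Ω, inner ℝ (flux p (g x)) ((hw.2.1.toLp k) x) := by
        apply integral_congr_ae
        filter_upwards [hw.2.1.coeFn_toLp] with x hx
        rw [hx]
    _ = ∫ x in Ω, F x * (hw.1.toLp w) x := h3
    _ = ∫ x in Ω, F x * w x := by
        apply integral_congr_ae
        filter_upwards [hw.1.coeFn_toLp] with x hx
        rw [hx]

end Pool.Agent.R525.MS
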