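import Pool.Agent.R525.MS.Defs

set_option autoImplicit false

open MeasureTheory Set Filter Topology
open scoped ENNReal NNReal ContDiff

namespace Pool.Agent.R525.MS

variable {N : ℕ}

theorem IsTest.continuous {Ω : Set (E N)} {φ : E N → ℝ} (h : IsTest Ω φ) : Continuous φ :=
  h.1.continuous

theorem IsTest.differentiable {Ω : Set (E N)} {φ : E N → ℝ} (h : IsTest Ω φ) :
    Differentiable ℝ φ := h.1.differentiable (by simp)

theorem IsTest.continuous_fderiv {Ω : Set (E N)} {φ : E N → ℝ} (h : IsTest Ω φ) :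
    Continuous (fderiv ℝ φ) := h.1.continuous_fderiv (by simp)

theorem norm_gradient (φ : E N → ℝ) (x : E N) : ‖gradient φ x‖ = ‖fderiv ℝ φ x‖ := by
  simp [gradient]

theorem inner_gradient (φ : E N → ℝ) (x v : E N) :
    inner ℝ (gradient φ x) v = fderiv ℝ φ x v := by
  simp [gradient]

theorem IsTest.continuous_gradient {Ω : Set (E N)} {φ : E N → ℝ} (h : IsTest Ω φ) :
    Continuous (gradient φ) := by
  unfold gradient
  exact (InnerProductSpace.toDual ℝ (E N)).symm.continuous.comp h.continuous_fderiv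

theorem IsTest.support_gradient {Ω : Set (E N)} {φ : E N → ℝ} (h : IsTest Ω φ) :
    HasCompactSupport (gradient φ) := by
  have h1 : HasCompactSupport (fderiv ℝ φ) := h.2.1.fderiv ℝ
  unfold gradient
  exact h1.comp_left (g := (InnerProductSpace.toDual ℝ (E N)).symm) (by simp)

theorem IsTest.zero_off {Ω : Set (E N)} {φ : E N → ℝ} (h : IsTest Ω φ) {x : E N} (hx : x ∉ Ω) :
    φ x = 0 := by
  by_contra hne
  exact hx (h.2.2 (subset_tsupport _ hne))

theorem IsTest.gradient_zero_off {Ω : Set (E N)} {φ : E N → ℝ} (h : IsTest Ω φ) {x : E N}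
    (hx : x ∉ Ω) : gradient φ x = 0 := by
  have : x ∉ tsupport φ := fun hh => hx (h.2.2 hh)
  have h2 : fderiv ℝ φ x = 0 := by
    by_contra hne
    exact this (support_fderiv_subset ℝ hne)
  simp [gradient, h2]

theorem IsTest.memLp {Ω : Set (E N)} {φ : E N → ℝ} (h : IsTest Ω φ) (q : ℝ≥0∞) (μ : Measure (E N))
    [IsFiniteMeasureOnCompacts μ] : MemLp φ q μ :=
  h.continuous.memLp_of_hasCompactSupport h.2.1

theorem IsTest.memLp_gradient {Ω : Set (E N)} {φ : E N → ℝ} (h : IsTest Ω φ) (q : ℝ≥0∞)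
    (μ : Measure (E N)) [IsFiniteMeasureOnCompacts μ] : MemLp (gradient φ) q μ :=
  h.continuous_gradient.memLp_of_hasCompactSupport h.support_gradient

/-- The Poincaré inequality for test functions, in integrated form. -/
theorem poinc_int {Ω : Set (E N)} (hN : 0 < N) {p R : ℝ} (hp : 1 < p) (hR : 0 < R)
    (hΩ : Ω ⊆ Metric.closedBall 0 R) {φ : E N → ℝ} (h : IsTest Ω φ) :
    ∫ x, |φ x| ^ p ≤ p * R * ∫ x, |φ x| ^ (p - 1) * ‖gradient φ x‖ := by
  haveI : Nonempty (Fin N) := ⟨⟨0, hN⟩⟩
  obtain ⟨v, hv⟩ := exists_norm_eq (E N) (zero_le_one (α := ℝ))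
  have hp0 : (0 : ℝ) < p := by linarith
  set f : E N → ℝ := fun x => inner ℝ v x with hf
  set G : E N → ℝ := fun x => |φ x| ^ p with hG
  have hfd : Differentiable ℝ f := by
    intro x
    exact (differentiableAt_const v).inner ℝ differentiableAt_id
  have hf' : ∀ x, fderiv ℝ f x v = 1 := by
    intro x
    have : HasFDerivAt f (innerSL ℝ v) x := (innerSL ℝ v).hasFDerivAt
    rw [this.fderiv]
    simp [real_inner_self_eq_norm_sq, hv]
  have hG' : ∀ x, HasFDerivAt G ((p * |φ x| ^ (p - 2) * φ x) • fderiv ℝ φ x) x := by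
    intro x
    have h1 : HasDerivAt (fun y : ℝ => |y| ^ p) (p * |φ x| ^ (p - 2) * φ x) (φ x) :=
      hasDerivAt_abs_rpow (φ x) hp
    exact h1.comp_hasFDerivAt x (h.differentiable x).hasFDerivAt
  have hGd : Differentiable ℝ G := fun x => (hG' x).differentiableAt
  have hGc : Continuous G := (h.continuous.abs).rpow_const (fun x => Or.inr hp0.le)
  have hGs : HasCompactSupport G := by
    apply h.2.1.comp_left (g := fun y : ℝ => |y| ^ p)
    simp [Real.zero_rpow hp0.ne']
  have hGfd : ∀ x, fderiv ℝ G x v = (p * |φ x| ^ (p - 2) * φ x) * fderiv ℝ φ x v := by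
    intro x; rw [(hG' x).fderiv]; simp
  have habs : ∀ x, |p * |φ x| ^ (p - 2) * φ x| = p * |φ x| ^ (p - 1) := by
    intro x
    rw [abs_mul, abs_mul, abs_of_pos hp0, abs_of_nonneg (Real.rpow_nonneg (abs_nonneg _) _)]
    rcases eq_or_ne (φ x) 0 with h0 | h0
    · simp [h0, Real.zero_rpow (by linarith : p - 1 ≠ 0)]
    · have : (0 : ℝ) < |φ x| := abs_pos.2 h0
      rw [mul_assoc, ← Real.rpow_add_one this.ne']
      congr 2; ring
  -- integrability
  have hH : Continuous fun x => p * |φ x| ^ (p - 1) * ‖gradient φ x‖ :=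
    ((continuous_const.mul ((h.continuous.abs).rpow_const (fun x => Or.inr (by linarith)))).mul
      h.continuous_gradient.norm)
  have hHs : HasCompactSupport fun x => p * |φ x| ^ (p - 1) * ‖gradient φ x‖ :=
    (h.support_gradient.norm).mul_left
  have hHi : Integrable fun x => p * |φ x| ^ (p - 1) * ‖gradient φ x‖ :=
    hH.integrable_of_hasCompactSupport hHs
  have hfR : ∀ x, φ x ≠ 0 → |f x| ≤ R := by
    intro x hx
    have hxΩ : x ∈ Ω := h.2.2 (subset_tsupport _ hx)
    have h1 : ‖x‖ ≤ R := by simpa using hΩ hxΩ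
    calc |f x| ≤ ‖v‖ * ‖x‖ := abs_real_inner_le_norm v x
      _ ≤ R := by rw [hv, one_mul]; exact h1
  have hbound : ∀ x, |f x * fderiv ℝ G x v| ≤ R * (p * |φ x| ^ (p - 1) * ‖gradient φ x‖) := by
    intro x
    rw [hGfd, abs_mul, abs_mul, habs]
    have h2 : |fderiv ℝ φ x v| ≤ ‖gradient φ x‖ := by
      rw [norm_gradient]
      calc |fderiv ℝ φ x v| ≤ ‖fderiv ℝ φ x‖ * ‖v‖ := (fderiv ℝ φ x).le_opNorm v
        _ = ‖fderiv ℝ φ x‖ := by rw [hv, mul_one]
    rcases eq_or_ne (φ x) 0 with h0 | h0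
    · simp [h0, Real.zero_rpow (by linarith : p - 1 ≠ 0)]
    · have h3 := hfR x h0
      have h4 : 0 ≤ p * |φ x| ^ (p - 1) := by positivity
      exact mul_le_mul h3 (mul_le_mul_of_nonneg_left h2 h4) (by positivity) hR.le
  have hfc : Continuous f := hfd.continuous
  have hint2 : Integrable fun x => f x * fderiv ℝ G x v := by
    have hm : AEStronglyMeasurable (fun x => f x * fderiv ℝ G x v) volume := by
      have h7 : Measurable fun x => fderiv ℝ G x v := measurable_fderiv_apply_const ℝ G v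
      exact (hfc.measurable.mul h7).aestronglyMeasurable
    refine (hHi.const_mul R).mono' hm (Eventually.of_forall fun x => ?_)
    rw [Real.norm_eq_abs]; exact hbound x
  have hint1 : Integrable fun x => fderiv ℝ f x v * G x := by
    simp only [hf', one_mul]
    exact hGc.integrable_of_hasCompactSupport hGs
  have hint3 : Integrable fun x => f x * G x :=
    (hfc.mul hGc).integrable_of_hasCompactSupport hGs.mul_left
  have key := integral_mul_fderiv_eq_neg_fderiv_mul_of_integrable (μ := volume)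
    hint1 hint2 hint3 (fun x _ => hfd x) (fun x _ => hGd x)
  simp only [hf', one_mul] at key
  have h5 : ∫ x, G x = - ∫ x, f x * fderiv ℝ G x v := by rw [key]; ring
  have h6 : ∫ x, |φ x| ^ p = ∫ x, G x := rfl
  rw [h6, h5]
  calc - ∫ x, f x * fderiv ℝ G x v = ∫ x, -(f x * fderiv ℝ G x v) := (integral_neg _).symm
    _ ≤ ∫ x, R * (p * |φ x| ^ (p - 1) * ‖gradient φ x‖) := by
        apply integral_mono hint2.neg (hHi.const_mul R)
        intro x
        exact (neg_le_abs _).trans (hbound x)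
    _ = p * R * ∫ x, |φ x| ^ (p - 1) * ‖gradient φ x‖ := by
        rw [integral_const_mul]
        have : (fun x => p * |φ x| ^ (p - 1) * ‖gradient φ x‖)
            = fun x => p * (|φ x| ^ (p - 1) * ‖gradient φ x‖) := by ext x; ring
        rw [this, integral_const_mul]; ring

end Pool.Agent.R525.MS
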