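import Pool.Agent.R525.MS.Defs

set_option autoImplicit false

open MeasureTheory Set Filter Topology
open scoped ENNReal NNReal ContDiff

namespace Pool.Agent.R525.MS

variable {N : ℕ}

/-- Scalar Bernoulli inequality in homogeneous form. -/
theorem scalar_le {p r s : ℝ} (hp : 1 < p) (hr : 0 < r) (hs : 0 ≤ s) :
    r ^ p + p * (r ^ (p - 1) * (s - r)) ≤ s ^ p := by
  have h1 : 1 + p * (s / r - 1) ≤ (1 + (s / r - 1)) ^ p :=
    one_add_mul_self_le_rpow_one_add (by have : 0 ≤ s / r := by positivity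
                                         linarith) hp.le
  have h2 : (1 + (s / r - 1)) = s / r := by ring
  rw [h2, Real.div_rpow hs hr.le] at h1
  have hrp : 0 < r ^ p := Real.rpow_pos_of_pos hr p
  rw [le_div_iff₀ hrp] at h1
  have h3 : r ^ p = r ^ (p - 1) * r := by
    rw [← Real.rpow_add_one hr.ne']; congr 1; ring
  calc r ^ p + p * (r ^ (p - 1) * (s - r)) = (1 + p * (s / r - 1)) * r ^ p := by
        rw [h3]; field_simp
    _ ≤ s ^ p := h1

theorem scalar_lt {p r s : ℝ} (hp : 1 < p) (hr : 0 < r) (hs : 0 ≤ s) (hne : s ≠ r) :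
    r ^ p + p * (r ^ (p - 1) * (s - r)) < s ^ p := by
  have hne' : s / r - 1 ≠ 0 := by
    intro h
    apply hne
    have : s / r = 1 := by linarith
    field_simp at this
    exact this
  have h1 : 1 + p * (s / r - 1) < (1 + (s / r - 1)) ^ p :=
    one_add_mul_self_lt_rpow_one_add (by have : 0 ≤ s / r := by positivity
                                         linarith) hne' hp
  have h2 : (1 + (s / r - 1)) = s / r := by ring
  rw [h2, Real.div_rpow hs hr.le] at h1
  have hrp : 0 < r ^ p := Real.rpow_pos_of_pos hr p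
  rw [lt_div_iff₀ hrp] at h1
  have h3 : r ^ p = r ^ (p - 1) * r := by
    rw [← Real.rpow_add_one hr.ne']; congr 1; ring
  calc r ^ p + p * (r ^ (p - 1) * (s - r)) = (1 + p * (s / r - 1)) * r ^ p := by
        rw [h3]; field_simp
    _ < s ^ p := h1

theorem convex_lt {p : ℝ} (hp : 1 < p) {a b : E N} (hab : a ≠ b) :
    ‖a‖ ^ p + p * (‖a‖ ^ (p - 2) * inner ℝ a (b - a)) < ‖b‖ ^ p := by
  have hp0 : 0 < p := by linarith
  rcases eq_or_ne a 0 with h0 | h0
  · subst h0
    have hb : 0 < ‖b‖ := norm_pos_iff.2 hab.symm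
    simp only [norm_zero, inner_zero_left, mul_zero, add_zero, Real.zero_rpow hp0.ne']
    exact Real.rpow_pos_of_pos hb p
  · have hr : 0 < ‖a‖ := norm_pos_iff.2 h0
    have hin : inner ℝ a (b - a) = inner ℝ a b - ‖a‖ * ‖a‖ := by
      rw [inner_sub_right, real_inner_self_eq_norm_mul_norm]
    have hle : inner ℝ a b ≤ ‖a‖ * ‖b‖ := real_inner_le_norm a b
    have hpow : 0 < ‖a‖ ^ (p - 2) := Real.rpow_pos_of_pos hr _
    have h3 : ‖a‖ ^ (p - 1) = ‖a‖ ^ (p - 2) * ‖a‖ := by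
      rw [← Real.rpow_add_one hr.ne']; congr 1; ring
    rcases hle.lt_or_eq with hlt | heq
    · have h4 := scalar_le hp hr (norm_nonneg b)
      have h5 : ‖a‖ ^ (p - 2) * inner ℝ a (b - a) < ‖a‖ ^ (p - 1) * (‖b‖ - ‖a‖) := by
        rw [hin, h3, mul_assoc]
        apply mul_lt_mul_of_pos_left _ hpow
        nlinarith
      nlinarith
    · have hne : ‖b‖ ≠ ‖a‖ := by
        intro h
        apply hab
        have h6 := inner_eq_norm_mul_iff_real.1 heq
        rw [h] at h6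
        exact smul_right_injective _ hr.ne' h6
      have h4 := scalar_lt hp hr (norm_nonneg b) hne
      have h5 : ‖a‖ ^ (p - 2) * inner ℝ a (b - a) = ‖a‖ ^ (p - 1) * (‖b‖ - ‖a‖) := by
        rw [hin, h3, heq]; ring
      rw [h5]; exact h4

theorem convex_le {p : ℝ} (hp : 1 < p) (a b : E N) :
    ‖a‖ ^ p + p * (‖a‖ ^ (p - 2) * inner ℝ a (b - a)) ≤ ‖b‖ ^ p := by
  rcases eq_or_ne a b with h | h
  · subst h; simp
  · exact (convex_lt hp h).le

theorem mono_lt {p : ℝ} (hp : 1 < p) {a b : E N} (hab : a ≠ b) :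
    0 < ‖a‖ ^ (p - 2) * inner ℝ a (a - b) - ‖b‖ ^ (p - 2) * inner ℝ b (a - b) := by
  have h1 := convex_lt hp hab
  have h2 := convex_lt hp hab.symm
  have h3 : inner ℝ a (b - a) = - inner ℝ a (a - b) := by
    rw [← inner_neg_right]; congr 1; abel
  rw [h3] at h1
  nlinarith

theorem mid_lt {p : ℝ} (hp : 1 < p) {a b : E N} (hab : a ≠ b) :
    ‖(1 / 2 : ℝ) • (a + b)‖ ^ p < (‖a‖ ^ p + ‖b‖ ^ p) / 2 := by
  set m : E N := (1 / 2 : ℝ) • (a + b) with hm
  have ha : a - m = (1 / 2 : ℝ) • (a - b) := by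
    rw [hm, smul_add, smul_sub]
    have : a = (1 / 2 : ℝ) • a + (1 / 2 : ℝ) • a := by rw [← add_smul]; norm_num
    nth_rewrite 1 [this]; abel
  have hb : b - m = - ((1 / 2 : ℝ) • (a - b)) := by
    rw [hm, smul_add, smul_sub]
    have : b = (1 / 2 : ℝ) • b + (1 / 2 : ℝ) • b := by rw [← add_smul]; norm_num
    nth_rewrite 1 [this]; abel
  have hne : m ≠ a := by
    intro h
    have : a - m = 0 := by rw [h]; simp
    rw [ha, smul_eq_zero] at this
    rcases this with h | h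
    · norm_num at h
    · exact hab (sub_eq_zero.1 h)
  have h1 := convex_lt hp hne
  have h2 := convex_le hp m b
  rw [ha] at h1
  rw [hb, inner_neg_right] at h2
  linarith

theorem unif_conv {p : ℝ} (hp : 1 < p) (ε : ℝ) (hε : 0 < ε) :
    ∃ C : ℝ, 0 ≤ C ∧ ∀ a b : E N, ‖a - b‖ ^ p ≤ ε * (‖a‖ ^ p + ‖b‖ ^ p) +
      C * ((‖a‖ ^ p + ‖b‖ ^ p) / 2 - ‖(1 / 2 : ℝ) • (a + b)‖ ^ p) := by
  have hp0 : 0 < p := by linarith
  -- the normalised statement
  set K : Set (E N × E N) := {z | ‖z‖ = 1 ∧ ε ≤ ‖z.1 - z.2‖ ^ p} with hK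
  have hKc : IsCompact K := by
    have h1 : IsCompact (Metric.sphere (0 : E N × E N) 1) := isCompact_sphere 0 1
    have h2 : IsClosed {z : E N × E N | ε ≤ ‖z.1 - z.2‖ ^ p} := by
      apply isClosed_le continuous_const
      exact ((continuous_fst.sub continuous_snd).norm).rpow_const (fun _ => Or.inr hp0.le)
    have : K = Metric.sphere (0 : E N × E N) 1 ∩ {z : E N × E N | ε ≤ ‖z.1 - z.2‖ ^ p} := by
      ext z; simp [hK]
    rw [this]
    exact h1.inter_right h2
  set d : E N × E N → ℝ := fun z => (‖z.1‖ ^ p + ‖z.2‖ ^ p) / 2 -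
    ‖(1 / 2 : ℝ) • (z.1 + z.2)‖ ^ p with hd
  have hdc : Continuous d := by
    apply Continuous.sub
    · apply Continuous.div_const
      exact ((continuous_fst.norm).rpow_const (fun _ => Or.inr hp0.le)).add
        ((continuous_snd.norm).rpow_const (fun _ => Or.inr hp0.le))
    · exact (((continuous_fst.add continuous_snd).const_smul (1 / 2 : ℝ)).norm).rpow_const
        (fun _ => Or.inr hp0.le)
  have hdpos : ∀ z ∈ K, 0 < d z := by
    rintro z ⟨-, hz⟩
    have hne : z.1 ≠ z.2 := by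
      intro h
      rw [h, sub_self, norm_zero, Real.zero_rpow hp0.ne'] at hz
      linarith
    have := mid_lt hp hne
    simp only [hd]; linarith
  have hdnn : ∀ z, 0 ≤ d z := by
    intro z
    rcases eq_or_ne z.1 z.2 with h | h
    · have h2 : (1 / 2 : ℝ) • (z.1 + z.2) = z.2 := by
        rw [h, ← two_smul ℝ z.2, smul_smul]; norm_num
      simp only [hd]; rw [h2, h]; linarith
    · have := mid_lt hp h
      simp only [hd]; linarith
  obtain ⟨δ, hδ, hδK⟩ : ∃ δ : ℝ, 0 < δ ∧ ∀ z ∈ K, δ ≤ d z := by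
    rcases K.eq_empty_or_nonempty with h | h
    · exact ⟨1, one_pos, by simp [h]⟩
    · obtain ⟨z0, hz0, hmin⟩ := hKc.exists_isMinOn h hdc.continuousOn
      exact ⟨d z0, hdpos z0 hz0, fun z hz => hmin hz⟩
  refine ⟨2 ^ p / δ, by positivity, fun a b => ?_⟩
  -- scale
  set z : E N × E N := (a, b) with hz
  change ‖z.1 - z.2‖ ^ p ≤ ε * (‖z.1‖ ^ p + ‖z.2‖ ^ p) + 2 ^ p / δ * d z
  rcases eq_or_ne z 0 with h0 | h0
  · rw [h0]; simp [Real.zero_rpow hp0.ne', hd]
  set s : ℝ := ‖z‖ with hs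
  have hspos : 0 < s := norm_pos_iff.2 h0
  have hmax : s ^ p ≤ ‖z.1‖ ^ p + ‖z.2‖ ^ p := by
    have h1 : 0 ≤ ‖z.1‖ ^ p := Real.rpow_nonneg (norm_nonneg _) p
    have h2 : 0 ≤ ‖z.2‖ ^ p := Real.rpow_nonneg (norm_nonneg _) p
    rcases max_choice ‖z.1‖ ‖z.2‖ with h | h
    · have : s = ‖z.1‖ := by rw [hs, Prod.norm_def, h]
      rw [this]; linarith
    · have : s = ‖z.2‖ := by rw [hs, Prod.norm_def, h]
      rw [this]; linarith
  have hspp : 0 < s ^ p := Real.rpow_pos_of_pos hspos p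
  by_cases hcase : ‖z.1 - z.2‖ ^ p ≤ ε * s ^ p
  · have h1 := hdnn z
    have h2 : 0 ≤ 2 ^ p / δ * d z := by positivity
    nlinarith
  · push Not at hcase
    set w : E N × E N := s⁻¹ • z with hw
    have hw1 : w ∈ K := by
      refine ⟨?_, ?_⟩
      · rw [hw, norm_smul, norm_inv, Real.norm_of_nonneg hspos.le, ← hs]
        exact inv_mul_cancel₀ hspos.ne'
      · have : w.1 - w.2 = s⁻¹ • (z.1 - z.2) := by rw [hw, smul_sub]; rfl
        rw [this, norm_smul, norm_inv, Real.norm_of_nonneg hspos.le,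
          Real.mul_rpow (by positivity) (norm_nonneg _), Real.inv_rpow hspos.le]
        rw [inv_mul_eq_div, le_div_iff₀ hspp]
        exact hcase.le
    have hdw : d w = d z / s ^ p := by
      have e1 : ‖w.1‖ ^ p = ‖z.1‖ ^ p / s ^ p := by
        have : w.1 = s⁻¹ • z.1 := rfl
        rw [this, norm_smul, norm_inv, Real.norm_of_nonneg hspos.le,
          Real.mul_rpow (by positivity) (norm_nonneg _), Real.inv_rpow hspos.le, inv_mul_eq_div]
      have e2 : ‖w.2‖ ^ p = ‖z.2‖ ^ p / s ^ p := by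
        have : w.2 = s⁻¹ • z.2 := rfl
        rw [this, norm_smul, norm_inv, Real.norm_of_nonneg hspos.le,
          Real.mul_rpow (by positivity) (norm_nonneg _), Real.inv_rpow hspos.le, inv_mul_eq_div]
      have e3 : ‖(1 / 2 : ℝ) • (w.1 + w.2)‖ ^ p = ‖(1 / 2 : ℝ) • (z.1 + z.2)‖ ^ p / s ^ p := by
        have : (1 / 2 : ℝ) • (w.1 + w.2) = s⁻¹ • ((1 / 2 : ℝ) • (z.1 + z.2)) := by
          have h1 : w.1 = s⁻¹ • z.1 := rfl
          have h2 : w.2 = s⁻¹ • z.2 := rfl
          rw [h1, h2, ← smul_add, smul_comm]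
        rw [this, norm_smul, norm_inv, Real.norm_of_nonneg hspos.le,
          Real.mul_rpow (by positivity) (norm_nonneg _), Real.inv_rpow hspos.le, inv_mul_eq_div]
      simp only [hd]
      rw [e1, e2, e3]; ring
    have h1 := hδK w hw1
    rw [hdw, le_div_iff₀ hspp] at h1
    have h2 : ‖z.1 - z.2‖ ^ p ≤ 2 ^ p * s ^ p := by
      rw [← Real.mul_rpow (by norm_num) hspos.le]
      apply Real.rpow_le_rpow (norm_nonneg _) _ hp0.le
      calc ‖z.1 - z.2‖ ≤ ‖z.1‖ + ‖z.2‖ := norm_sub_le _ _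
        _ ≤ s + s := add_le_add (norm_fst_le z) (norm_snd_le z)
        _ = 2 * s := by ring
    have h3 : 2 ^ p * s ^ p ≤ 2 ^ p / δ * d z := by
      rw [div_mul_eq_mul_div, le_div_iff₀ hδ]
      have : (0:ℝ) < 2 ^ p := by positivity
      nlinarith
    have h4 : 0 ≤ ε * (‖z.1‖ ^ p + ‖z.2‖ ^ p) := by positivity
    linarith

end Pool.Agent.R525.MS
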