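import Pool.Agent.R525.MS.Poinc
import Pool.Agent.R525.MS.Vec

set_option autoImplicit false

open MeasureTheory Set Filter Topology
open scoped ENNReal NNReal ContDiff

namespace Pool.Agent.R525.MS

variable {N : ℕ}

theorem lp_norm_rpow {α F : Type*} [MeasurableSpace α] {μ : Measure α} [NormedAddCommGroup F]
    {p : ℝ} (hp : 1 < p) (f : Lp F (ENNReal.ofReal p) μ) : ‖f‖ ^ p = ∫ x, ‖f x‖ ^ p ∂μ := by
  have hp0 : 0 < p := by linarith
  have h1 : ENNReal.ofReal p ≠ 0 := by simp [hp0]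
  have h2 := (Lp.memLp f).eLpNorm_eq_integral_rpow_norm h1 ENNReal.ofReal_ne_top
  rw [ENNReal.toReal_ofReal hp0.le] at h2
  have h3 : 0 ≤ ∫ x, ‖f x‖ ^ p ∂μ := integral_nonneg fun x => by positivity
  rw [Lp.norm_def, h2, ENNReal.toReal_ofReal (by positivity), Real.rpow_inv_rpow h3 hp0.ne']

theorem integrable_rpow {α F : Type*} [MeasurableSpace α] {μ : Measure α} [NormedAddCommGroup F]
    {p : ℝ} (hp : 1 < p) {f : α → F} (hf : MemLp f (ENNReal.ofReal p) μ) :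
    Integrable (fun x => ‖f x‖ ^ p) μ := by
  have hp0 : 0 < p := by linarith
  have h1 : ENNReal.ofReal p ≠ 0 := by simp [hp0]
  have := hf.integrable_norm_rpow h1 ENNReal.ofReal_ne_top
  rwa [ENNReal.toReal_ofReal hp0.le] at this

/-- Vector space structure on test functions. -/
theorem IsTest.zero (Ω : Set (E N)) : IsTest Ω (0 : E N → ℝ) := by
  refine ⟨contDiff_const, HasCompactSupport.zero, ?_⟩
  simp [tsupport]

theorem IsTest.add {Ω : Set (E N)} {φ ψ : E N → ℝ} (h : IsTest Ω φ) (h' : IsTest Ω ψ) :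
    IsTest Ω (φ + ψ) := by
  refine ⟨h.1.add h'.1, h.2.1.add h'.2.1, ?_⟩
  exact (tsupport_add φ ψ).trans (union_subset h.2.2 h'.2.2)

theorem IsTest.smul {Ω : Set (E N)} {φ : E N → ℝ} (h : IsTest Ω φ) (c : ℝ) :
    IsTest Ω (c • φ) := by
  refine ⟨h.1.const_smul c, ?_, ?_⟩
  · exact h.2.1.comp_left (g := fun y => c • y) (by simp)
  · refine subset_trans ?_ h.2.2
    exact closure_mono (Function.support_const_smul_subset c φ)

theorem gradient_add' {Ω : Set (E N)} {φ ψ : E N → ℝ} (h : IsTest Ω φ) (h' : IsTest Ω ψ)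
    (x : E N) : gradient (φ + ψ) x = gradient φ x + gradient ψ x := by
  unfold gradient
  rw [fderiv_add (h.differentiable x) (h'.differentiable x), map_add]

theorem gradient_smul' {Ω : Set (E N)} {φ : E N → ℝ} (h : IsTest Ω φ) (c : ℝ) (x : E N) :
    gradient (c • φ) x = c • gradient φ x := by
  unfold gradient
  rw [fderiv_const_smul (h.differentiable x)]
  simp

variable (Ω : Set (E N)) (p : ℝ)

/-- `L^p(Ω)`. -/
noncomputable abbrev V1 := Lp ℝ (ENNReal.ofReal p) (volume.restrict Ω)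

/-- `L^p(Ω; ℝ^N)`. -/
noncomputable abbrev V2 := Lp (E N) (ENNReal.ofReal p) (volume.restrict Ω)

/-- The pairs `(φ, ∇φ)`, `φ` a test function. -/
noncomputable def T [Fact (1 ≤ ENNReal.ofReal p)] : Submodule ℝ (V1 Ω p × V2 Ω p) where
  carrier := {z | ∃ φ, IsTest Ω φ ∧ (z.1 : E N → ℝ) =ᵐ[volume.restrict Ω] φ ∧
    (z.2 : E N → E N) =ᵐ[volume.restrict Ω] gradient φ}
  add_mem' := by
    rintro z w ⟨φ, hφ, h1, h2⟩ ⟨ψ, hψ, h3, h4⟩
    refine ⟨φ + ψ, hφ.add hψ, ?_, ?_⟩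
    · filter_upwards [Lp.coeFn_add z.1 w.1, h1, h3] with x hx hx1 hx3
      rw [Prod.fst_add, hx, Pi.add_apply, hx1, hx3]; rfl
    · filter_upwards [Lp.coeFn_add z.2 w.2, h2, h4] with x hx hx1 hx3
      rw [Prod.snd_add, hx, Pi.add_apply, hx1, hx3, gradient_add' hφ hψ]
  zero_mem' := by
    refine ⟨0, IsTest.zero Ω, ?_, ?_⟩
    · exact Lp.coeFn_zero _ _ _
    · filter_upwards [Lp.coeFn_zero (E N) (ENNReal.ofReal p) (volume.restrict Ω)] with x hx
      rw [Prod.snd_zero, hx]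
      simp [gradient]
  smul_mem' := by
    rintro c z ⟨φ, hφ, h1, h2⟩
    refine ⟨c • φ, hφ.smul c, ?_, ?_⟩
    · filter_upwards [Lp.coeFn_smul c z.1, h1] with x hx hx1
      rw [Prod.smul_fst, hx, Pi.smul_apply, hx1]; rfl
    · filter_upwards [Lp.coeFn_smul c z.2, h2] with x hx hx1
      rw [Prod.smul_snd, hx, Pi.smul_apply, hx1, gradient_smul' hφ]

/-- `W_0^{1,p}(Ω)` as a closed subspace of `L^p(Ω) × L^p(Ω; ℝ^N)`. -/
noncomputable def S [Fact (1 ≤ ENNReal.ofReal p)] : Submodule ℝ (V1 Ω p × V2 Ω p) := (T Ω p).topologicalClosure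

variable {Ω} {p}

theorem W0.toS [Fact (1 ≤ ENNReal.ofReal p)] {u : E N → ℝ} {g : E N → E N} (h : W0 Ω p u g) :
    (h.1.toLp u, h.2.1.toLp g) ∈ S Ω p := by
  obtain ⟨hu, hg, φ, hφ, h1, h2⟩ := h
  apply mem_closure_of_tendsto (b := atTop)
    (f := fun k => (((hφ k).memLp (ENNReal.ofReal p) (volume.restrict Ω)).toLp (φ k),
      ((hφ k).memLp_gradient (ENNReal.ofReal p) (volume.restrict Ω)).toLp (gradient (φ k))))
  · apply Tendsto.prodMk_nhds
    · exact (Lp.tendsto_Lp_iff_tendsto_eLpNorm'' φ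
        (fun k => (hφ k).memLp (ENNReal.ofReal p) (volume.restrict Ω)) u hu).2 h1
    · exact (Lp.tendsto_Lp_iff_tendsto_eLpNorm'' (fun k => gradient (φ k))
        (fun k => (hφ k).memLp_gradient (ENNReal.ofReal p) (volume.restrict Ω)) g hg).2 h2
  · exact Eventually.of_forall fun k => ⟨φ k, hφ k, MemLp.coeFn_toLp (hφ k |>.memLp _ _),
      MemLp.coeFn_toLp (hφ k |>.memLp_gradient _ _)⟩

theorem S.toW0 [Fact (1 ≤ ENNReal.ofReal p)] {z : V1 Ω p × V2 Ω p} (hz : z ∈ S Ω p) :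
    W0 Ω p z.1 z.2 := by
  obtain ⟨x, hx, hlim⟩ := mem_closure_iff_seq_limit.1 hz
  choose φ hφ h1 h2 using hx
  refine ⟨Lp.memLp _, Lp.memLp _, φ, hφ, ?_, ?_⟩
  · have := (Lp.tendsto_Lp_iff_tendsto_eLpNorm' (fun k => (x k).1) z.1).1
      ((continuous_fst.tendsto z).comp hlim)
    refine this.congr fun k => eLpNorm_congr_ae ?_
    filter_upwards [h1 k] with y hy
    simp [hy]
  · have := (Lp.tendsto_Lp_iff_tendsto_eLpNorm' (fun k => (x k).2) z.2).1
      ((continuous_snd.tendsto z).comp hlim)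
    refine this.congr fun k => eLpNorm_congr_ae ?_
    filter_upwards [h2 k] with y hy
    simp [hy]

theorem W0.congr {u v : E N → ℝ} {g h : E N → E N} (hW : W0 Ω p u g)
    (huv : u =ᵐ[volume.restrict Ω] v) (hgh : g =ᵐ[volume.restrict Ω] h) : W0 Ω p v h := by
  obtain ⟨hu, hg, φ, hφ, h1, h2⟩ := hW
  refine ⟨hu.ae_eq huv, hg.ae_eq hgh, φ, hφ, ?_, ?_⟩
  · refine h1.congr fun k => eLpNorm_congr_ae ?_
    filter_upwards [huv] with y hy
    rw [hy]
  · refine h2.congr fun k => eLpNorm_congr_ae ?_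
    filter_upwards [hgh] with y hy
    rw [hy]

theorem W0.sub (hp : 1 < p) {u v : E N → ℝ} {g h : E N → E N} (hW : W0 Ω p u g)
    (hW' : W0 Ω p v h) : W0 Ω p (u - v) (g - h) := by
  have : Fact (1 ≤ ENNReal.ofReal p) := ⟨by rw [ENNReal.one_le_ofReal]; exact hp.le⟩
  have h1 := (S Ω p).sub_mem hW.toS hW'.toS
  refine (S.toW0 h1).congr ?_ ?_
  · filter_upwards [Lp.coeFn_sub (hW.1.toLp u) (hW'.1.toLp v), hW.1.coeFn_toLp, hW'.1.coeFn_toLp]
      with x hx h2 h3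
    rw [Prod.fst_sub, hx, Pi.sub_apply, h2, h3]; rfl
  · filter_upwards [Lp.coeFn_sub (hW.2.1.toLp g) (hW'.2.1.toLp h), hW.2.1.coeFn_toLp,
      hW'.2.1.coeFn_toLp] with x hx h2 h3
    rw [Prod.snd_sub, hx, Pi.sub_apply, h2, h3]; rfl

theorem W0.smul (hp : 1 < p) {u : E N → ℝ} {g : E N → E N} (hW : W0 Ω p u g) (c : ℝ) :
    W0 Ω p (c • u) (c • g) := by
  have : Fact (1 ≤ ENNReal.ofReal p) := ⟨by rw [ENNReal.one_le_ofReal]; exact hp.le⟩
  have h1 := (S Ω p).smul_mem c hW.toS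
  refine (S.toW0 h1).congr ?_ ?_
  · filter_upwards [Lp.coeFn_smul c (hW.1.toLp u), hW.1.coeFn_toLp] with x hx h2
    rw [Prod.smul_fst, hx, Pi.smul_apply, h2]; rfl
  · filter_upwards [Lp.coeFn_smul c (hW.2.1.toLp g), hW.2.1.coeFn_toLp] with x hx h2
    rw [Prod.smul_snd, hx, Pi.smul_apply, h2]; rfl

/-- Poincaré for test functions in `L^p` form. -/
theorem poinc_test (hN : 0 < N) {R : ℝ} (hp : 1 < p) (hR : 0 < R)
    (hΩ : Ω ⊆ Metric.closedBall 0 R) {φ : E N → ℝ} (h : IsTest Ω φ) :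
    ∫ x, ‖φ x‖ ^ p ≤ (2 * p * R) ^ p * ∫ x, ‖gradient φ x‖ ^ p := by
  have hp0 : 0 < p := by linarith
  have h1 := poinc_int hN hp hR hΩ h
  have i1 : Integrable (fun x => ‖φ x‖ ^ p) volume := integrable_rpow hp (h.memLp _ _)
  have i2 : Integrable (fun x => ‖gradient φ x‖ ^ p) volume :=
    integrable_rpow hp (h.memLp_gradient _ _)
  have hpt : ∀ x, p * R * (|φ x| ^ (p - 1) * ‖gradient φ x‖) ≤
      (1 / 2) * ‖φ x‖ ^ p + (2 * p * R) ^ p / 2 * ‖gradient φ x‖ ^ p := by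
    intro x
    set a := |φ x| with ha
    set b := ‖gradient φ x‖ with hb
    have ha0 : 0 ≤ a := abs_nonneg _
    have hb0 : 0 ≤ b := norm_nonneg _
    rw [Real.norm_eq_abs, ← ha]
    have hap : 0 ≤ a ^ p := Real.rpow_nonneg ha0 _
    have hbp : 0 ≤ b ^ p := Real.rpow_nonneg hb0 _
    have hap1 : 0 ≤ a ^ (p - 1) := Real.rpow_nonneg ha0 _
    have hmul : ∀ t : ℝ, 0 ≤ t → t ^ (p - 1) * t = t ^ p := by
      intro t ht
      rcases ht.eq_or_lt with h0 | h0
      · rw [← h0, mul_zero, Real.zero_rpow hp0.ne']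
      · rw [← Real.rpow_add_one h0.ne']; congr 1; ring
    by_cases hc : 2 * p * R * b ≤ a
    · have h2 : p * R * (a ^ (p - 1) * b) ≤ (1 / 2) * a ^ p := by
        rw [← hmul a ha0]
        nlinarith
      have h3 : 0 ≤ (2 * p * R) ^ p / 2 * b ^ p := by positivity
      linarith
    · push Not at hc
      have h2 : a ^ (p - 1) ≤ (2 * p * R * b) ^ (p - 1) :=
        Real.rpow_le_rpow ha0 hc.le (by linarith)
      have h3 : p * R * (a ^ (p - 1) * b) ≤ (2 * p * R) ^ p / 2 * b ^ p := by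
        calc p * R * (a ^ (p - 1) * b) ≤ p * R * ((2 * p * R * b) ^ (p - 1) * b) := by
              apply mul_le_mul_of_nonneg_left _ (by positivity)
              exact mul_le_mul_of_nonneg_right h2 hb0
          _ = (1 / 2) * ((2 * p * R * b) ^ (p - 1) * (2 * p * R * b)) := by ring
          _ = (1 / 2) * (2 * p * R * b) ^ p := by rw [hmul _ (by positivity)]
          _ = (2 * p * R) ^ p / 2 * b ^ p := by
              rw [Real.mul_rpow (by positivity) hb0]; ring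
      have : 0 ≤ (1 / 2) * a ^ p := by positivity
      linarith
  have h2 : p * R * ∫ x, |φ x| ^ (p - 1) * ‖gradient φ x‖ ≤
      (1 / 2) * (∫ x, ‖φ x‖ ^ p) + (2 * p * R) ^ p / 2 * ∫ x, ‖gradient φ x‖ ^ p := by
    rw [← integral_const_mul, ← integral_const_mul, ← integral_const_mul,
      ← integral_add (i1.const_mul _) (i2.const_mul _)]
    apply integral_mono_of_nonneg
    · exact Eventually.of_forall fun x => by positivity
    · exact (i1.const_mul _).add (i2.const_mul _)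
    · exact Eventually.of_forall hpt
  have h3 : ∫ x, |φ x| ^ p = ∫ x, ‖φ x‖ ^ p := rfl
  rw [h3] at h1
  linarith

theorem setIntegral_eq_of_zero_off {f : E N → ℝ} (h : ∀ x, x ∉ Ω → f x = 0) :
    ∫ x in Ω, f x = ∫ x, f x :=
  setIntegral_eq_integral_of_forall_compl_eq_zero h

theorem poinc_S [Fact (1 ≤ ENNReal.ofReal p)] (hN : 0 < N) {R : ℝ} (hp : 1 < p) (hR : 0 < R)
    (hΩ : Ω ⊆ Metric.closedBall 0 R) {z : V1 Ω p × V2 Ω p} (hz : z ∈ S Ω p) :
    ‖z.1‖ ≤ 2 * p * R * ‖z.2‖ := by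
  have hp0 : 0 < p := by linarith
  have hcl : IsClosed {z : V1 Ω p × V2 Ω p | ‖z.1‖ ≤ 2 * p * R * ‖z.2‖} :=
    isClosed_le continuous_fst.norm (continuous_const.mul continuous_snd.norm)
  have hsub : closure (T Ω p : Set (V1 Ω p × V2 Ω p)) ⊆
      {z : V1 Ω p × V2 Ω p | ‖z.1‖ ≤ 2 * p * R * ‖z.2‖} := by
    refine closure_minimal ?_ hcl
    rintro z ⟨φ, hφ, h1, h2⟩
    have h3 := poinc_test hN hp hR hΩ hφ
    have e1 : ‖z.1‖ ^ p = ∫ x, ‖φ x‖ ^ p := by
      rw [lp_norm_rpow hp]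
      calc ∫ x in Ω, ‖z.1 x‖ ^ p = ∫ x in Ω, ‖φ x‖ ^ p :=
            integral_congr_ae (h1.mono fun x hx => by simp only [hx])
        _ = ∫ x, ‖φ x‖ ^ p := setIntegral_eq_of_zero_off fun x hx => by
            rw [hφ.zero_off hx]; simp [Real.zero_rpow hp0.ne']
    have e2 : ‖z.2‖ ^ p = ∫ x, ‖gradient φ x‖ ^ p := by
      rw [lp_norm_rpow hp]
      calc ∫ x in Ω, ‖z.2 x‖ ^ p = ∫ x in Ω, ‖gradient φ x‖ ^ p :=
            integral_congr_ae (h2.mono fun x hx => by simp only [hx])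
        _ = ∫ x, ‖gradient φ x‖ ^ p := setIntegral_eq_of_zero_off fun x hx => by
            rw [hφ.gradient_zero_off hx]; simp [Real.zero_rpow hp0.ne']
    rw [← e1, ← e2, ← Real.mul_rpow (by positivity) (norm_nonneg _)] at h3
    exact (Real.rpow_le_rpow_iff (norm_nonneg _) (by positivity) hp0).1 h3
  exact hsub hz

end Pool.Agent.R525.MS
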